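import Pool.Agent.helper88.RQ2.Spec

set_option autoImplicit false

/-! Row `V2` of project RQ (MP_bb0bb6_co): a minimally affinely dependent set has one circuit. -/

open Set Matroid RadonMin

namespace RadonQ2

theorem V2_proof (hGCI : GCI_stmt) : V2_stmt := by
  intro V _ _ _ X hX
  have h1 : (affMat X).IsCircuit (X : Set V) := (hGCI V X X (Finset.Subset.refl X)).2 hX
  constructor
  · have h2 : {C : Set V | (affMat X).IsCircuit C} = {(X : Set V)} := by
      ext C
      rw [Set.mem_ofPred_eq, Set.mem_singleton_iff]
      constructor
      · intro hC
        have h3 : C ⊆ (X : Set V) := by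
          have h4 := hC.subset_ground
          rwa [affMat_E] at h4
        exact hC.eq_of_subset_isCircuit h1 h3
      · rintro rfl
        exact h1
    unfold ci cc
    rw [h2, Set.ncard_singleton]
  · have h2 := rk_circuit h1
    rw [Set.ncard_coe_finset] at h2
    unfold ra
    exact h2.symm

end RadonQ2
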